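import Mathlib

set_option autoImplicit false

/-! Finite similarity structures on compact ultrametric spaces (Hughes) and their groups. -/

namespace Pool.Agent.Lib_helper47.FSS

open Set Metric

variable {X : Type*} [MetricSpace X]

/-- balls of positive radius -/
def IsBall (B : Set X) : Prop := ∃ (x : X) (r : ℝ), 0 < r ∧ B = ball x r

/-- A finite similarity structure on `X` (Hughes): to each ordered pair of balls a finite set
`Sim B₁ B₂` of surjective similarities `B₁ → B₂`, closed under identities, inverses, compositions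
and restrictions to subballs.  A similarity defined on `B₁` is represented by any map `X → X`
extending it (axiom `congr`), and `finite` counts maps up to equality on `B₁`. -/
structure FinSimStructure (X : Type*) [MetricSpace X] where
  /-- the similarities `B₁ → B₂` -/
  Sim : Set X → Set X → Set (X → X)
  left_ball : ∀ {B₁ B₂ : Set X} {f : X → X}, f ∈ Sim B₁ B₂ → IsBall B₁
  right_ball : ∀ {B₁ B₂ : Set X} {f : X → X}, f ∈ Sim B₁ B₂ → IsBall B₂
  congr : ∀ {B₁ B₂ : Set X} {f g : X → X}, f ∈ Sim B₁ B₂ → EqOn f g B₁ → g ∈ Sim B₁ B₂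
  image_eq : ∀ {B₁ B₂ : Set X} {f : X → X}, f ∈ Sim B₁ B₂ → f '' B₁ = B₂
  similarity : ∀ {B₁ B₂ : Set X} {f : X → X}, f ∈ Sim B₁ B₂ →
    ∃ c : ℝ, 0 < c ∧ ∀ x ∈ B₁, ∀ y ∈ B₁, dist (f x) (f y) = c * dist x y
  finite : ∀ (B₁ B₂ : Set X), ∃ F : Set (X → X), F.Finite ∧ ∀ f ∈ Sim B₁ B₂, ∃ g ∈ F, EqOn f g B₁
  id_mem : ∀ {B : Set X}, IsBall B → id ∈ Sim B B
  inv_mem : ∀ {B₁ B₂ : Set X} {f : X → X}, f ∈ Sim B₁ B₂ →
    ∃ g ∈ Sim B₂ B₁, ∀ x ∈ B₁, g (f x) = x
  comp_mem : ∀ {B₁ B₂ B₃ : Set X} {f g : X → X}, f ∈ Sim B₁ B₂ → g ∈ Sim B₂ B₃ →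
    g ∘ f ∈ Sim B₁ B₃
  restrict_mem : ∀ {B₁ B₂ B₃ : Set X} {f : X → X}, f ∈ Sim B₁ B₂ → IsBall B₃ → B₃ ⊆ B₁ →
    f ∈ Sim B₃ (f '' B₃)

theorem IsBall.nonempty {B : Set X} (h : IsBall B) : B.Nonempty := by
  obtain ⟨x, r, hr, rfl⟩ := h
  exact ⟨x, mem_ball_self hr⟩

theorem IsBall.isOpen {B : Set X} (h : IsBall B) : IsOpen B := by
  obtain ⟨x, r, hr, rfl⟩ := h
  exact isOpen_ball

section ultra
variable [IsUltrametricDist X]

theorem IsBall.eq_ball {B : Set X} (h : IsBall B) {x : X} (hx : x ∈ B) :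
    ∃ r : ℝ, 0 < r ∧ B = ball x r := by
  obtain ⟨y, r, hr, rfl⟩ := h
  exact ⟨r, hr, IsUltrametricDist.ball_eq_of_mem hx⟩

theorem IsBall.nested {B C : Set X} (hB : IsBall B) (hC : IsBall C) (h : (B ∩ C).Nonempty) :
    B ⊆ C ∨ C ⊆ B := by
  obtain ⟨x, r, hr, rfl⟩ := hB
  obtain ⟨y, s, hs, rfl⟩ := hC
  rcases IsUltrametricDist.ball_subset_trichotomy (x := x) (y := y) (r := r) (s := s) with h1 | h1 | h1
  · exact Or.inl h1
  · exact Or.inr h1
  · exact absurd (Set.disjoint_iff_inter_eq_empty.1 h1) h.ne_empty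

/-- finitely many balls of a given radius -/
theorem finite_balls [CompactSpace X] (r : ℝ) (hr : 0 < r) : {B : Set X | ∃ x, B = ball x r}.Finite := by
  obtain ⟨t, ht⟩ := isCompact_univ.elim_finite_subcover (fun x : X => ball x r)
    (fun x => isOpen_ball) (fun x _ => mem_iUnion.2 ⟨x, mem_ball_self hr⟩)
  refine (t.finite_toSet.image (fun x => ball x r)).subset ?_
  rintro B ⟨x, rfl⟩
  obtain ⟨y, hy⟩ := mem_iUnion.1 (ht (mem_univ x))
  obtain ⟨hyt, hxy⟩ := mem_iUnion.1 hy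
  exact ⟨y, hyt, (IsUltrametricDist.ball_eq_of_mem hxy)⟩

/-- finitely many balls contain a given ball -/
theorem finite_above [CompactSpace X] {B : Set X} (hB : IsBall B) :
    {C : Set X | IsBall C ∧ B ⊆ C}.Finite := by
  obtain ⟨x, r, hr, rfl⟩ := hB
  have hfin := finite_balls (X := X) r hr
  -- each such ball is a union of balls of radius r
  have hsub : {C : Set X | IsBall C ∧ ball x r ⊆ C} ⊆
      (fun 𝒜 : Set (Set X) => ⋃₀ 𝒜) '' {𝒜 | 𝒜 ⊆ {B : Set X | ∃ x, B = ball x r}} := by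
    rintro C ⟨hC, hBC⟩
    obtain ⟨s, hs, rfl⟩ := hC.eq_ball (hBC (mem_ball_self hr))
    refine ⟨{A | ∃ y ∈ ball x s, A = ball y r}, ?_, ?_⟩
    · rintro A ⟨y, _, rfl⟩
      exact ⟨y, rfl⟩
    · ext z
      constructor
      · rintro ⟨A, ⟨y, hy, rfl⟩, hz⟩
        rw [IsUltrametricDist.ball_eq_of_mem hy]
        by_cases hrs : r ≤ s
        · exact ball_subset_ball hrs hz
        · push Not at hrs
          have h1 : ball x s ⊆ ball x r := ball_subset_ball hrs.le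
          have h2 : ball x r = ball y r := IsUltrametricDist.ball_eq_of_mem (h1 hy)
          rw [← IsUltrametricDist.ball_eq_of_mem hy]
          exact hBC (h2 ▸ hz)
      · intro hz
        exact ⟨ball z r, ⟨z, hz, rfl⟩, mem_ball_self hr⟩
  exact (hfin.finite_subsets.image _).subset hsub

/-- `b` is a maximal proper subball of `P` -/
def Child (b P : Set X) : Prop :=
  IsBall b ∧ IsBall P ∧ b ⊂ P ∧ ∀ C, IsBall C → b ⊆ C → C ⊂ P → C = b

theorem exists_child [CompactSpace X] {B P : Set X} (hB : IsBall B) (hP : IsBall P) (h : B ⊂ P) :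
    ∃ c, Child c P ∧ B ⊆ c := by
  have hfin : {C : Set X | IsBall C ∧ B ⊆ C ∧ C ⊂ P}.Finite :=
    (finite_above hB).subset fun C hC => ⟨hC.1, hC.2.1⟩
  obtain ⟨c, hc, hmax⟩ := hfin.exists_maximal ⟨B, hB, Subset.rfl, h⟩
  refine ⟨c, ⟨hc.1, hP, hc.2.2, fun C hC h1 h2 => ?_⟩, hc.2.1⟩
  exact Subset.antisymm (hmax ⟨hC, hc.2.1.trans h1, h2⟩ h1) h1

theorem finite_children [CompactSpace X] (P : Set X) : {b : Set X | Child b P}.Finite := by
  classical
  rcases Set.eq_empty_or_nonempty {b : Set X | Child b P} with h0 | ⟨b0, hb0⟩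
  · rw [h0]
    exact Set.finite_empty
  obtain ⟨x, r, hr, rfl⟩ := (hb0 : Child b0 P).2.1
  -- the diameter of P is attained
  have hne : (ball x r).Nonempty := ⟨x, mem_ball_self hr⟩
  have hcpt : IsCompact (ball x r) := (IsUltrametricDist.isClosed_ball x r).isCompact
  obtain ⟨p, hp, hpmax⟩ := (hcpt.prod hcpt).exists_isMaxOn (hne.prod hne)
    (continuous_dist.continuousOn : ContinuousOn (fun p : X × X => dist p.1 p.2) _)
  set ρ := dist p.1 p.2 with hρ
  have hmax : ∀ y ∈ ball x r, ∀ z ∈ ball x r, dist y z ≤ ρ := by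
    intro y hy z hz
    have hm : (y, z) ∈ ball x r ×ˢ ball x r := ⟨hy, hz⟩
    exact hpmax hm
  have hρpos : 0 < ρ := by
    obtain ⟨z, hz⟩ := hb0.1.nonempty
    obtain ⟨y, hy, hyb⟩ := Set.exists_of_ssubset hb0.2.2.1
    have : 0 < dist y z := dist_pos.2 (fun h => hyb (h ▸ hz))
    exact this.trans_le (hmax y hy z (hb0.2.2.1.1 hz))
  refine (finite_balls (X := X) ρ hρpos).subset ?_
  intro b hb
  obtain ⟨z, hz⟩ := (hb : Child b (ball x r)).1.nonempty
  refine ⟨z, ?_⟩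
  have hzP : z ∈ ball x r := hb.2.2.1.1 hz
  -- ball z ρ is a proper subball of P
  have h1 : ball z ρ ⊆ ball x r := by
    rw [IsUltrametricDist.ball_eq_of_mem hzP]
    refine ball_subset_ball ?_
    have h2 := hp.1
    have h3 := hp.2
    rw [mem_ball] at h2 h3
    have h4 : dist p.1 p.2 ≤ max (dist p.1 x) (dist x p.2) := dist_triangle_max _ _ _
    rw [dist_comm x p.2] at h4
    exact h4.trans (max_le h2.le h3.le)
  have h2 : ball z ρ ≠ ball x r := by
    intro heq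
    have h3 : dist p.1 p.2 ≤ max (dist p.1 z) (dist z p.2) := dist_triangle_max _ _ _
    have h4 : dist p.1 z < ρ := by
      have : p.1 ∈ ball z ρ := heq ▸ hp.1
      exact this
    have h5 : dist z p.2 < ρ := by
      have : p.2 ∈ ball z ρ := heq ▸ hp.2
      rw [dist_comm]
      exact this
    exact absurd h3 (not_le.2 (max_lt h4 h5))
  -- b is contained in ball z ρ
  obtain ⟨s, hs, hbs⟩ := hb.1.eq_ball hz
  have h3 : b ⊆ ball z ρ := by
    rw [hbs]
    by_contra hcon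
    obtain ⟨y, hy, hyρ⟩ := Set.not_subset.1 hcon
    rw [mem_ball, not_lt] at hyρ
    have hle : ρ < s := lt_of_le_of_lt hyρ hy
    have : ball x r ⊆ ball z s := by
      intro w hw
      exact lt_of_le_of_lt (hmax w hw z hzP) hle
    exact hb.2.2.1.2 (hbs ▸ this)
  exact (hb.2.2.2 (ball z ρ) ⟨z, ρ, hρpos, rfl⟩ h3 (Set.ssubset_iff_subset_ne.2 ⟨h1, h2⟩)).symm

/-- number of balls between `B` and `P` -/
noncomputable def dep (B P : Set X) : ℕ := {C : Set X | IsBall C ∧ B ⊂ C ∧ C ⊆ P}.ncard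

theorem finite_dep [CompactSpace X] {B : Set X} (hB : IsBall B) (P : Set X) :
    {C : Set X | IsBall C ∧ B ⊂ C ∧ C ⊆ P}.Finite :=
  (finite_above hB).subset fun _ hC => ⟨hC.1, hC.2.1.1⟩

theorem dep_mono [CompactSpace X] {B P Q : Set X} (hB : IsBall B) (h : P ⊆ Q) : dep B P ≤ dep B Q :=
  Set.ncard_le_ncard (fun _ hC => ⟨hC.1, hC.2.1, hC.2.2.trans h⟩) (finite_dep hB Q)

theorem dep_child [CompactSpace X] {B c P : Set X} (hB : IsBall B) (hc : Child c P) (h : B ⊆ c) :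
    dep B P = dep B c + 1 := by
  have h1 : {C : Set X | IsBall C ∧ B ⊂ C ∧ C ⊆ P} =
      insert P {C : Set X | IsBall C ∧ B ⊂ C ∧ C ⊆ c} := by
    ext C
    constructor
    · rintro ⟨hC, hBC, hCP⟩
      by_cases hCP' : C = P
      · exact Or.inl hCP'
      · right
        refine ⟨hC, hBC, ?_⟩
        obtain ⟨z, hz⟩ := hB.nonempty
        rcases hC.nested hc.1 ⟨z, hBC.1 hz, h hz⟩ with h2 | h2
        · exact h2
        · rw [hc.2.2.2 C hC h2 (Set.ssubset_iff_subset_ne.2 ⟨hCP, hCP'⟩)]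
    · rintro (rfl | ⟨hC, hBC, hCc⟩)
      · exact ⟨hc.2.1, lt_of_le_of_lt h hc.2.2.1, Subset.rfl⟩
      · exact ⟨hC, hBC, hCc.trans hc.2.2.1.1⟩
  unfold dep
  rw [h1, Set.ncard_insert_of_notMem _ (finite_dep hB c)]
  rintro ⟨_, _, h2⟩
  exact hc.2.2.1.2 h2

end ultra

/-- `f` restricted to `B` belongs to the structure -/
def Sm (𝓢 : FinSimStructure X) (B : Set X) (f : X → X) : Prop := f ∈ 𝓢.Sim B (f '' B)

variable {𝓢 : FinSimStructure X}

theorem Sm.ball {B : Set X} {f : X → X} (h : Sm 𝓢 B f) : IsBall B := 𝓢.left_ball h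

theorem Sm.image_ball {B : Set X} {f : X → X} (h : Sm 𝓢 B f) : IsBall (f '' B) := 𝓢.right_ball h

theorem Sm.restrict {B C : Set X} {f : X → X} (h : Sm 𝓢 B f) (hC : IsBall C) (hCB : C ⊆ B) :
    Sm 𝓢 C f := 𝓢.restrict_mem h hC hCB

theorem Sm.comp {B : Set X} {f g : X → X} (h : Sm 𝓢 B f) (hg : Sm 𝓢 (f '' B) g) :
    Sm 𝓢 B (g ∘ f) := by
  unfold Sm
  rw [Set.image_comp]
  exact 𝓢.comp_mem h hg

theorem Sm.injOn {B : Set X} {f : X → X} (h : Sm 𝓢 B f) : InjOn f B := by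
  obtain ⟨c, hc, hd⟩ := 𝓢.similarity h
  intro x hx y hy hxy
  have := hd x hx y hy
  rw [hxy, dist_self] at this
  have : dist x y = 0 := by
    rcases mul_eq_zero.1 this.symm with h1 | h1
    · exact absurd h1 hc.ne'
    · exact h1
  exact dist_eq_zero.1 this

theorem Sm.id {B : Set X} (hB : IsBall B) : Sm 𝓢 B _root_.id := by
  unfold Sm
  rw [Set.image_id]
  exact 𝓢.id_mem hB

theorem Sm.congr {B : Set X} {f g : X → X} (h : Sm 𝓢 B f) (hfg : EqOn f g B) : Sm 𝓢 B g := by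
  unfold Sm
  rw [← hfg.image_eq]
  exact 𝓢.congr h hfg

/-- pull-back of balls -/
theorem Sm.pull {B C : Set X} {f : X → X} (h : Sm 𝓢 B f) (hC : IsBall C) (hCB : C ⊆ f '' B) :
    ∃ C', IsBall C' ∧ C' ⊆ B ∧ f '' C' = C := by
  obtain ⟨g, hg, hgf⟩ := 𝓢.inv_mem h
  refine ⟨g '' C, 𝓢.right_ball (𝓢.restrict_mem hg hC hCB), ?_, ?_⟩
  · calc g '' C ⊆ g '' (f '' B) := Set.image_mono hCB
      _ = B := 𝓢.image_eq hg
  · ext y
    constructor
    · rintro ⟨_, ⟨z, hz, rfl⟩, rfl⟩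
      obtain ⟨x, hx, rfl⟩ := hCB hz
      rwa [hgf x hx]
    · intro hy
      obtain ⟨x, hx, rfl⟩ := hCB hy
      exact ⟨g (f x), ⟨f x, hy, rfl⟩, by rw [hgf x hx]⟩

theorem Sm.image_subset_iff {B C C' : Set X} {f : X → X} (h : Sm 𝓢 B f) (hC : C ⊆ B) (hC' : C' ⊆ B) :
    f '' C ⊆ f '' C' ↔ C ⊆ C' := h.injOn.image_subset_image_iff hC hC'

theorem Sm.image_ssubset_iff {B C C' : Set X} {f : X → X} (h : Sm 𝓢 B f) (hC : C ⊆ B)
    (hC' : C' ⊆ B) : f '' C ⊂ f '' C' ↔ C ⊂ C' := by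
  rw [Set.ssubset_def, Set.ssubset_def, h.image_subset_iff hC hC', h.image_subset_iff hC' hC]

theorem Sm.dep_image {B P : Set X} {f : X → X} (h : Sm 𝓢 P f) (hB : B ⊆ P) :
    dep (f '' B) (f '' P) = dep B P := by
  unfold dep
  have h1 : {C : Set X | IsBall C ∧ f '' B ⊂ C ∧ C ⊆ f '' P} =
      (fun C => f '' C) '' {C : Set X | IsBall C ∧ B ⊂ C ∧ C ⊆ P} := by
    ext C
    constructor
    · rintro ⟨hC, hBC, hCP⟩
      obtain ⟨C', hC', hC'P, rfl⟩ := h.pull hC hCP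
      exact ⟨C', ⟨hC', (h.image_ssubset_iff hB hC'P).1 hBC, hC'P⟩, rfl⟩
    · rintro ⟨C', ⟨hC', hBC', hC'P⟩, rfl⟩
      exact ⟨(h.restrict hC' hC'P).image_ball, (h.image_ssubset_iff hB hC'P).2 hBC',
        Set.image_mono hC'P⟩
  rw [h1]
  refine Set.InjOn.ncard_image ?_
  intro C hC C' hC' heq
  exact (h.injOn.image_eq_image_iff hC.2.2 hC'.2.2).1 heq

end Pool.Agent.Lib_helper47.FSS
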