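import Pool.Agent.Lib_helper47.FSS.Dyn

set_option autoImplicit false
set_option linter.unusedSectionVars false

/-! The order bound for a periodic sequence of maps. -/

namespace Pool.Agent.Lib_helper47.FSS

open Set Metric

variable {X : Type*} [MetricSpace X] [IsUltrametricDist X] [CompactSpace X]
variable {𝓢 : FinSimStructure X} {D : Set (Set X)} {s : ℕ → X → X}

theorem Part.next_exact (h : Part 𝓢 D s) (n : ℕ) (hn : 0 < n) (hs : ∀ t, s (t + n) = s t)
    (d : ℕ) (hd : ∀ t, ∀ P ∈ D, ∀ Q ∈ D, s t '' P ⊆ Q → dep (s t '' P) Q ≤ d)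
    (t : ℕ) (P : Set X) (hP : P ∈ D) (hgood : ∀ m, ∃ Q ∈ D, run s t m '' P ⊆ Q)
    (m : ℕ) (hm : 1 ≤ m) (hex : run s t m '' P ∈ D) :
    ∃ m', 1 ≤ m' ∧ m' ≤ 1 + d * (d + 2) ^ (n * {b : Set X | ∃ P ∈ D, Child b P}.ncard) ∧
      run s t m' '' P ∈ D := by
  obtain ⟨Q, hQ, hPQ⟩ := hgood 1
  by_cases heq : run s t 1 '' P = Q
  · exact ⟨1, le_rfl, by omega, heq ▸ hQ⟩
  have hi : ∀ j, run s (t + 1) j '' (s t '' P) = run s t (1 + j) '' P := by
    intro j
    rw [run_image_add, run_one]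
  have hpopped : ¬ ∃ Q ∈ D, run s (t + 1) (m - 1) '' (s t '' P) ⊂ Q := by
    rintro ⟨Q', hQ', hlt⟩
    rw [hi, Nat.add_sub_cancel' hm] at hlt
    exact h.not_ssubset hex hQ' hlt
  obtain ⟨m'', _, hp⟩ := exists_pop hpopped
  have hball : IsBall (s t '' P) := (h.sm P hP t).image_ball
  have h1 := h.pop_chain ((d + 2) ^ (n * {b : Set X | ∃ P ∈ D, Child b P}.ncard)) m''
    (fun t' P' hP' b m' hb hm' _ => h.popVals_le n hn hs d hd m' ⟨t', P', hP', b, hb, hm'⟩)
    d (t + 1) (s t '' P) Q hQ m'' hball hPQ (hd t P hP Q hQ hPQ) hp le_rfl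
  refine ⟨1 + m'', by omega, by omega, ?_⟩
  obtain ⟨Q', hQ', hsub⟩ := hgood (1 + m'')
  have : run s t (1 + m'') '' P = Q' := by
    by_contra hne
    apply hp.1
    refine ⟨Q', hQ', ?_⟩
    rw [hi]
    exact Set.ssubset_iff_subset_ne.2 ⟨hsub, hne⟩
  rw [this]
  exact hQ'

theorem Part.return_time (h : Part 𝓢 D s) (n : ℕ) (hn : 0 < n) (hs : ∀ t, s (t + n) = s t)
    (d : ℕ) (hd : ∀ t, ∀ P ∈ D, ∀ Q ∈ D, s t '' P ⊆ Q → dep (s t '' P) Q ≤ d)
    (μ : ℕ) (hμ : μ = 1 + d * (d + 2) ^ (n * {b : Set X | ∃ P ∈ D, Child b P}.ncard))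
    (t : ℕ) (P : Set X) (hP : P ∈ D) (hgood : ∀ m, ∃ Q ∈ D, run s t m '' P ⊆ Q)
    (T : ℕ) (hT : 1 ≤ T) (hid : ∀ t, run s t T = id) :
    ∃ a b : ℕ, a < b ∧ b - a ≤ (n * D.ncard) * μ ∧ n ∣ b - a ∧ run s t a '' P ∈ D ∧
      run s t b '' P = run s t a '' P := by
  classical
  have hnext : ∀ a, run s t a '' P ∈ D → ∃ a', a < a' ∧ a' ≤ a + μ ∧ run s t a' '' P ∈ D := by
    intro a ha
    obtain ⟨m', h1, h2, h3⟩ := h.next_exact n hn hs d hd (t + a) (run s t a '' P) ha
      (fun m => by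
        obtain ⟨Q, hQ, hsub⟩ := hgood (a + m)
        exact ⟨Q, hQ, by rw [← run_image_add]; exact hsub⟩) T hT
      (by rw [hid, Set.image_id]; exact ha)
    exact ⟨a + m', by omega, by omega, by rw [run_image_add]; exact h3⟩
  choose! nx hnx1 hnx2 hnx3 using hnext
  set f : ℕ → ℕ := fun j => nx^[j] 0 with hf
  have hf0 : f 0 = 0 := rfl
  have hfs : ∀ j, f (j + 1) = nx (f j) := fun j => Function.iterate_succ_apply' nx j 0
  have hfD : ∀ j, run s t (f j) '' P ∈ D := by
    intro j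
    induction j with
    | zero => rw [hf0, run_zero, Set.image_id]; exact hP
    | succ j ih => rw [hfs]; exact hnx3 _ ih
  have hlt : ∀ j, f j < f (j + 1) := fun j => by rw [hfs]; exact hnx1 _ (hfD j)
  have hle : ∀ j, f (j + 1) ≤ f j + μ := fun j => by rw [hfs]; exact hnx2 _ (hfD j)
  have hmono : StrictMono f := strictMono_nat_of_lt_succ hlt
  have hdiff : ∀ i k, f (i + k) ≤ f i + k * μ := by
    intro i k
    induction k with
    | zero => simp
    | succ k ih =>
      have := hle (i + k)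
      rw [← Nat.add_assoc, Nat.succ_mul]
      omega
  set Df := h.fin.toFinset with hDf
  have hcard : Df.card = D.ncard := (Set.ncard_eq_toFinset_card D h.fin).symm
  obtain ⟨i, hi, j, hj, hij, heq⟩ := Finset.exists_ne_map_eq_of_card_lt_of_maps_to
    (s := Finset.range (n * D.ncard + 1)) (t := Finset.range n ×ˢ Df)
    (f := fun j => ((t + f j) % n, run s t (f j) '' P)) (by
      rw [Finset.card_range, Finset.card_product, Finset.card_range, hcard]
      exact Nat.lt_succ_self _) (fun j _ => by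
      rw [Finset.coe_product, Set.mem_prod]
      exact ⟨by simpa using Nat.mod_lt _ hn, by simpa [hDf] using hfD j⟩)
  rw [Finset.mem_range] at hi hj
  have hwlog : ∀ i j : ℕ, i < j → j < n * D.ncard + 1 →
      ((t + f i) % n, run s t (f i) '' P) = ((t + f j) % n, run s t (f j) '' P) →
      ∃ a b : ℕ, a < b ∧ b - a ≤ (n * D.ncard) * μ ∧ n ∣ b - a ∧ run s t a '' P ∈ D ∧
        run s t b '' P = run s t a '' P := by
    intro i j hij hj heq
    rw [Prod.mk.injEq] at heq
    refine ⟨f i, f j, hmono hij, ?_, ?_, hfD i, heq.2.symm⟩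
    · have h1 := hdiff i (j - i)
      rw [Nat.add_sub_cancel' hij.le] at h1
      have h2 : (j - i) * μ ≤ (n * D.ncard) * μ := Nat.mul_le_mul_right _ (by omega)
      omega
    · have h3 : (t + f i) ≡ (t + f j) [MOD n] := heq.1
      have h4 := (Nat.modEq_iff_dvd' (Nat.add_le_add_left (hmono hij).le t)).1 h3
      rwa [Nat.add_sub_add_left] at h4
  rcases lt_or_gt_of_ne hij with h1 | h1
  · exact hwlog i j h1 hj heq
  · exact hwlog j i h1 hi heq.symm

theorem run_injective {s : ℕ → X → X} (hinj : ∀ t, Function.Injective (s t)) (t m : ℕ) :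
    Function.Injective (run s t m) := by
  induction m with
  | zero => exact Function.injective_id
  | succ m ih => exact (hinj _).comp ih

theorem run_surjective {s : ℕ → X → X} (hsurj : ∀ t, Function.Surjective (s t)) (t m : ℕ) :
    Function.Surjective (run s t m) := by
  induction m with
  | zero => exact Function.surjective_id
  | succ m ih => exact (hsurj _).comp ih

theorem run_continuous {s : ℕ → X → X} (hc : ∀ t, Continuous (s t)) (t m : ℕ) :
    Continuous (run s t m) := by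
  induction m with
  | zero => exact continuous_id
  | succ m ih => exact (hc _).comp ih

theorem per_mul {s : ℕ → X → X} {n : ℕ} (hs : ∀ t, s (t + n) = s t) (t k : ℕ) :
    s (t + n * k) = s t := by
  induction k with
  | zero => rfl
  | succ k ih => rw [Nat.mul_succ, ← Nat.add_assoc, hs, ih]

theorem run_per {s : ℕ → X → X} {n : ℕ} (hs : ∀ t, s (t + n) = s t) (t k m : ℕ) :
    run s (t + n * k) m = run s t m :=
  run_congr (fun j => by rw [Nat.add_right_comm, per_mul hs]) m

theorem run_iterate {s : ℕ → X → X} {n : ℕ} (hs : ∀ t, s (t + n) = s t) (t k e : ℕ) :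
    run s t (n * k * e) = (run s t (n * k))^[e] := by
  induction e with
  | zero => rfl
  | succ e ih =>
    rw [Nat.mul_succ, run_add, ih, Nat.mul_assoc, run_per hs, Function.iterate_succ']

/-- the maximal good ball around a point reaches an exact position -/
theorem Part.exists_exact (h : Part 𝓢 D s) (hc : ∀ t, Continuous (s t)) (T : ℕ) (hT : 1 ≤ T)
    (hid : run s 0 T = id) (hper : ∀ t, s (t + T) = s t) (x : X) :
    ∃ (t : ℕ) (B : Set X), x ∈ B ∧ run s 0 t '' B ∈ D ∧ ∀ m, ∃ P ∈ D, run s 0 m '' B ⊆ P := by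
  classical
  -- a good ball
  have hgood0 : ∃ B, IsBall B ∧ x ∈ B ∧ ∀ m, ∃ P ∈ D, run s 0 m '' B ⊆ P := by
    have hex : ∀ m, ∃ P ∈ D, run s 0 m x ∈ P := fun m => h.cover _
    choose P hPD hPx using hex
    set U : Set X := ⋂ m ∈ Finset.range T, (run s 0 m) ⁻¹' (P m) with hU
    have hUo : IsOpen U := isOpen_biInter_finset fun m _ =>
      (h.ball (hPD m)).isOpen.preimage (run_continuous hc 0 m)
    have hxU : x ∈ U := by
      rw [hU]
      exact Set.mem_iInter₂.2 fun m _ => hPx m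
    obtain ⟨r, hr, hrU⟩ := Metric.isOpen_iff.1 hUo x hxU
    refine ⟨Metric.ball x r, ⟨x, r, hr, rfl⟩, mem_ball_self hr, fun m => ?_⟩
    have hm : run s 0 m = run s 0 (m % T) := by
      conv_lhs => rw [← Nat.div_add_mod m T, run_add]
      have h1 : run s (0 + T * (m / T)) (m % T) = run s 0 (m % T) := run_per hper 0 (m / T) (m % T)
      have h2 : run s 0 (T * (m / T)) = id := by
        have := run_iterate hper 0 1 (m / T)
        rw [Nat.mul_one, hid, Function.iterate_id] at this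
        exact this
      rw [h1, h2]
      rfl
    refine ⟨P (m % T), hPD _, ?_⟩
    rw [hm]
    rintro _ ⟨y, hy, rfl⟩
    exact Set.mem_iInter₂.1 (hrU hy) (m % T) (Finset.mem_range.2 (Nat.mod_lt _ hT))
  obtain ⟨B₀, hB₀, hxB₀, hgB₀⟩ := hgood0
  have hfin : {C : Set X | (IsBall C ∧ B₀ ⊆ C) ∧ ∀ m, ∃ P ∈ D, run s 0 m '' C ⊆ P}.Finite :=
    (finite_above hB₀).subset fun C hC => hC.1
  obtain ⟨B, hB, hmax⟩ := hfin.exists_maximal ⟨B₀, ⟨hB₀, Subset.rfl⟩, hgB₀⟩
  have hxB : x ∈ B := hB.1.2 hxB₀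
  have hBball : IsBall B := hB.1.1
  have hsmB : ∀ m, Sm 𝓢 B (run s 0 m) := fun m => h.sm_run hBball 0 m fun j _ => hB.2 j
  by_contra hcon
  push Not at hcon
  have hstrict : ∀ m, ∃ P ∈ D, run s 0 m '' B ⊂ P := by
    intro m
    obtain ⟨P, hP, hsub⟩ := hB.2 m
    refine ⟨P, hP, Set.ssubset_iff_subset_ne.2 ⟨hsub, fun heq => ?_⟩⟩
    obtain ⟨m', hm'⟩ := hcon m B hxB (heq ▸ hP)
    obtain ⟨Q, hQ, hQsub⟩ := hB.2 m'
    exact hm' Q hQ hQsub
  -- the parent
  obtain ⟨P₀, hP₀, hBP₀⟩ := hstrict 0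
  rw [run_zero, Set.image_id] at hBP₀
  have hfin2 : {C : Set X | IsBall C ∧ B ⊂ C}.Finite :=
    (finite_above hBball).subset fun C hC => ⟨hC.1, hC.2.1⟩
  obtain ⟨B', hB', hmin⟩ := hfin2.exists_minimal ⟨P₀, h.ball hP₀, hBP₀⟩
  have hleast : ∀ C, IsBall C → B ⊂ C → B' ⊆ C := by
    intro C hC hBC
    obtain ⟨z, hz⟩ := hBball.nonempty
    rcases hC.nested hB'.1 ⟨z, hBC.1 hz, hB'.2.1 hz⟩ with h1 | h1
    · exact hmin ⟨hC, hBC⟩ h1
    · exact h1
  have key : ∀ m, Sm 𝓢 B' (run s 0 m) ∧ ∀ C, IsBall C → run s 0 m '' B ⊂ C → run s 0 m '' B' ⊆ C := by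
    intro m
    induction m with
    | zero =>
      refine ⟨Sm.id hB'.1, fun C hC hBC => ?_⟩
      rw [run_zero, Set.image_id] at hBC ⊢
      exact hleast C hC hBC
    | succ m ih =>
      obtain ⟨P, hP, hsub⟩ := hstrict m
      have hB'P : run s 0 m '' B' ⊆ P := ih.2 P (h.ball hP) hsub
      have hsm : Sm 𝓢 P (s (0 + m)) := h.sm P hP (0 + m)
      refine ⟨ih.1.comp (hsm.restrict ih.1.image_ball hB'P), fun C hC hBC => ?_⟩
      rw [run_succ, Set.image_comp] at hBC ⊢
      obtain ⟨z, hz⟩ := ((hsmB (m + 1)).image_ball).nonempty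
      rw [run_succ, Set.image_comp] at hz
      rcases hC.nested hsm.image_ball ⟨z, hBC.1 hz, Set.image_mono hsub.1 hz⟩ with h1 | h1
      · obtain ⟨C', hC', hC'P, rfl⟩ := hsm.pull hC h1
        refine Set.image_mono (ih.2 C' hC' ?_)
        exact (hsm.image_ssubset_iff hsub.1 hC'P).1 hBC
      · exact (Set.image_mono hB'P).trans h1
  have hB'good : ∀ m, ∃ P ∈ D, run s 0 m '' B' ⊆ P := by
    intro m
    obtain ⟨P, hP, hsub⟩ := hstrict m
    exact ⟨P, hP, (key m).2 P (h.ball hP) hsub⟩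
  have : B' ⊆ B := hmax ⟨⟨hB'.1, hB.1.2.trans hB'.2.1⟩, hB'good⟩ hB'.2.1
  exact hB'.2.2 this

/-- MAIN BOUND for a periodic sequence of maps -/
theorem Part.main (h : Part 𝓢 D s) (n : ℕ) (hn : 0 < n) (hs : ∀ t, s (t + n) = s t)
    (hc : ∀ t, Continuous (s t)) (hb : ∀ t, Function.Bijective (s t))
    (d : ℕ) (hd : ∀ t, ∀ P ∈ D, ∀ Q ∈ D, s t '' P ⊆ Q → dep (s t '' P) Q ≤ d)
    (E : ℕ) (hE : 1 ≤ E) (hEx : ∀ Q ∈ D, ∀ f ∈ 𝓢.Sim Q Q, ∀ x ∈ Q, f^[E] x = x)
    (N : ℕ) (hN : 1 ≤ N) (hg : (run s 0 n)^[N] = id) :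
    ∃ R : ℕ, 1 ≤ R ∧
      R ≤ E * ((n * D.ncard) *
        (1 + d * (d + 2) ^ (n * {b : Set X | ∃ P ∈ D, Child b P}.ncard))) ^ (n * D.ncard) ∧
      (run s 0 n)^[R] = id := by
  classical
  set μ := 1 + d * (d + 2) ^ (n * {b : Set X | ∃ P ∈ D, Child b P}.ncard) with hμ
  set Df := h.fin.toFinset with hDf
  have hcard : Df.card = D.ncard := (Set.ncard_eq_toFinset_card D h.fin).symm
  have hinj : ∀ t, Function.Injective (s t) := fun t => (hb t).1
  have hsurj : ∀ t, Function.Surjective (s t) := fun t => (hb t).2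
  -- total period
  have hid0 : run s 0 (n * 1 * N) = id := by rw [run_iterate hs, Nat.mul_one, hg]
  rw [Nat.mul_one] at hid0
  have hid : ∀ t, run s t (n * N) = id := by
    intro t
    have h1 : run s t (n * N) ∘ run s 0 t = run s 0 t := by
      have h2 := run_add s 0 t (n * N)
      have h3 := run_add s 0 (n * N) t
      rw [Nat.add_comm] at h3
      rw [h2, run_per hs, hid0, Nat.zero_add] at h3
      simpa using h3
    funext y
    obtain ⟨x, rfl⟩ := run_surjective hsurj 0 t y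
    exact congrFun h1 x
  have hT : 1 ≤ n * N := Nat.mul_pos hn hN
  -- return numbers
  set good : ℕ × Set X → ℕ → Prop := fun e k => 1 ≤ k ∧ k ≤ (n * D.ncard) * μ ∧
    run s e.1 (n * k) '' e.2 = e.2 ∧ Sm 𝓢 e.2 (run s e.1 (n * k)) with hgood
  set K : ℕ × Set X → ℕ := fun e => if he : ∃ k, good e k then he.choose else 1 with hK
  have hKspec : ∀ e, (∃ k, good e k) → good e (K e) := by
    intro e he
    simp only [hK, he, dif_pos]
    exact he.choose_spec
  have hKpos : ∀ e, 1 ≤ K e := by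
    intro e
    by_cases he : ∃ k, good e k
    · exact (hKspec e he).1
    · simp only [hK, he, dif_neg, not_false_eq_true, le_refl]
  set R := E * ∏ e ∈ Finset.range n ×ˢ Df, K e with hR
  by_cases hX : Nonempty X
  swap
  · refine ⟨E * 0 + 1, by omega, ?_, ?_⟩
    · rcases Nat.eq_zero_or_pos (n * D.ncard) with h0 | h0
      · rw [h0]
        simp
        omega
      · have h1 : 1 ≤ (n * D.ncard) * μ := Nat.mul_pos h0 (by omega)
        have h2 : 1 ≤ ((n * D.ncard) * μ) ^ (n * D.ncard) := Nat.one_le_pow _ _ h1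
        calc E * 0 + 1 = 1 * 1 := by ring
          _ ≤ E * ((n * D.ncard) * μ) ^ (n * D.ncard) := Nat.mul_le_mul hE h2
    · funext x
      exact absurd ⟨x⟩ hX
  obtain ⟨x₀⟩ := hX
  obtain ⟨P₀, hP₀, _⟩ := h.cover x₀
  have hDpos : 1 ≤ D.ncard := (Set.ncard_pos h.fin).2 ⟨P₀, hP₀⟩
  have hbase : 1 ≤ (n * D.ncard) * μ := Nat.mul_pos (Nat.mul_pos hn hDpos) (by omega)
  have hKle : ∀ e, K e ≤ (n * D.ncard) * μ := by
    intro e
    by_cases he : ∃ k, good e k
    · exact (hKspec e he).2.1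
    · simp only [hK, he, dif_neg, not_false_eq_true]
      exact hbase
  refine ⟨R, ?_, ?_, ?_⟩
  · exact Nat.mul_pos hE (Finset.prod_pos fun e _ => hKpos e)
  · refine Nat.mul_le_mul_left _ ?_
    calc ∏ e ∈ Finset.range n ×ˢ Df, K e ≤ ∏ _e ∈ Finset.range n ×ˢ Df, (n * D.ncard) * μ :=
          Finset.prod_le_prod' fun e _ => hKle e
      _ = ((n * D.ncard) * μ) ^ (n * D.ncard) := by
          rw [Finset.prod_const, Finset.card_product, Finset.card_range, hcard]
  · funext x
    obtain ⟨t, B, hxB, hBD, hBgood⟩ := h.exists_exact hc (n * N) hT hid0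
      (fun t => per_mul hs t N) x
    obtain ⟨a, b, hab, hle, hdvd, haD, hret⟩ := h.return_time n hn hs d hd μ hμ t
      (run s 0 t '' B) hBD (fun m => by
        obtain ⟨P, hP, hsub⟩ := hBgood (t + m)
        refine ⟨P, hP, ?_⟩
        rw [run_image_add, Nat.zero_add] at hsub
        exact hsub) (n * N) hT hid
    -- the exact state
    set t' := t + a with ht'
    set Q := run s t a '' (run s 0 t '' B) with hQ
    have hQeq : Q = run s 0 t' '' B := by
      rw [hQ, ht', run_image_add, Nat.zero_add]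
    have hQball : IsBall Q := h.ball haD
    have hQgood : ∀ m, ∃ P ∈ D, run s t' m '' Q ⊆ P := by
      intro m
      obtain ⟨P, hP, hsub⟩ := hBgood (t' + m)
      refine ⟨P, hP, ?_⟩
      rw [hQeq]
      rw [run_image_add, Nat.zero_add] at hsub
      exact hsub
    obtain ⟨k, hk⟩ := hdvd
    have hkpos : 1 ≤ k := by
      rcases Nat.eq_zero_or_pos k with h0 | h0
      · rw [h0, Nat.mul_zero] at hk
        omega
      · exact h0
    have hkle : k ≤ (n * D.ncard) * μ := by
      calc k ≤ n * k := Nat.le_mul_of_pos_left _ hn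
        _ = b - a := hk.symm
        _ ≤ _ := hle
    have hretQ : run s t' (n * k) '' Q = Q := by
      rw [← hk, hQ, ht']
      have := run_image_add s t a (b - a) (run s 0 t '' B)
      rw [Nat.add_sub_cancel' hab.le] at this
      rw [← this, hret]
    have hmodrun : ∀ m, run s (t' % n) m = run s t' m := by
      intro m
      have := run_per hs (t' % n) (t' / n) m
      rw [Nat.mod_add_div] at this
      exact this.symm
    have hex : ∃ k, good (t' % n, Q) k := by
      refine ⟨k, hkpos, hkle, ?_, ?_⟩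
      · simp only [hmodrun]
        exact hretQ
      · simp only [hmodrun]
        exact h.sm_run hQball t' (n * k) fun j _ => hQgood j
    have hKg := hKspec (t' % n, Q) hex
    set k' := K (t' % n, Q) with hk'
    have hret' : run s t' (n * k') '' Q = Q := by
      have := hKg.2.2.1
      simp only [hmodrun] at this
      exact this
    have hsm' : run s t' (n * k') ∈ 𝓢.Sim Q Q := by
      have := hKg.2.2.2
      simp only [hmodrun] at this
      unfold Sm at this
      rwa [hret'] at this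
    have hyQ : run s 0 t' x ∈ Q := by
      rw [hQeq]
      exact ⟨x, hxB, rfl⟩
    have hfix : run s t' (n * k' * E) (run s 0 t' x) = run s 0 t' x := by
      rw [run_iterate hs]
      exact hEx Q haD _ hsm' _ hyQ
    have hgfix : (run s 0 n)^[k' * E] x = x := by
      apply run_injective hinj 0 t'
      have h1 := run_add s 0 (n * k' * E) t'
      have h2 := run_add s 0 t' (n * k' * E)
      rw [Nat.add_comm] at h2
      rw [h1, Nat.zero_add, Nat.mul_assoc] at h2
      have h3 : run s (n * (k' * E)) t' = run s 0 t' := by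
        have := run_per hs 0 (k' * E) t'
        rwa [Nat.zero_add] at this
      have h4 : run s 0 (n * (k' * E)) = (run s 0 n)^[k' * E] := by
        have := run_iterate hs 0 1 (k' * E)
        rwa [Nat.mul_one] at this
      rw [h3, h4] at h2
      have h5 := congrFun h2 x
      simp only [Function.comp_apply] at h5
      rw [h5, ← Nat.mul_assoc, Nat.zero_add]
      exact hfix
    have hmem : (t' % n, Q) ∈ Finset.range n ×ˢ Df := by
      rw [Finset.mem_product, Finset.mem_range]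
      exact ⟨Nat.mod_lt _ hn, by simpa [hDf] using haD⟩
    have hdvdR : k' * E ∣ R := by
      rw [hR, Nat.mul_comm k' E]
      exact Nat.mul_dvd_mul_left E (Finset.dvd_prod_of_mem K hmem)
    exact Function.IsPeriodicPt.trans_dvd (f := run s 0 n) hgfix hdvdR

end Pool.Agent.Lib_helper47.FSS
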