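import Pool.Agent.Lib_helper47.FSS.Basic

set_option autoImplicit false
set_option linter.unusedSectionVars false

/-! Dynamics of a cyclic word on the balls. -/

namespace Pool.Agent.Lib_helper47.FSS

open Set Metric

variable {X : Type*} [MetricSpace X]

/-- composition of `m` consecutive maps, starting at time `t` -/
def run (s : ℕ → X → X) (t : ℕ) : ℕ → X → X
  | 0 => id
  | m + 1 => s (t + m) ∘ run s t m

theorem run_zero (s : ℕ → X → X) (t : ℕ) : run s t 0 = id := rfl

theorem run_succ (s : ℕ → X → X) (t m : ℕ) : run s t (m + 1) = s (t + m) ∘ run s t m := rfl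

theorem run_add (s : ℕ → X → X) (t a b : ℕ) : run s t (a + b) = run s (t + a) b ∘ run s t a := by
  induction b with
  | zero => rfl
  | succ b ih =>
    rw [← Nat.add_assoc, run_succ, ih, run_succ, ← Function.comp_assoc, Nat.add_assoc]

theorem run_succ' (s : ℕ → X → X) (t m : ℕ) : run s t (m + 1) = run s (t + 1) m ∘ s t := by
  rw [Nat.add_comm m 1, run_add]
  rfl

theorem run_one (s : ℕ → X → X) (t : ℕ) : run s t 1 = s t := rfl

theorem run_congr {s : ℕ → X → X} {t t' : ℕ} (h : ∀ m, s (t + m) = s (t' + m)) (m : ℕ) :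
    run s t m = run s t' m := by
  induction m with
  | zero => rfl
  | succ m ih => rw [run_succ, run_succ, ih, h]

theorem run_image_add (s : ℕ → X → X) (t a b : ℕ) (B : Set X) :
    run s t (a + b) '' B = run s (t + a) b '' (run s t a '' B) := by
  rw [run_add, Set.image_comp]

variable [IsUltrametricDist X]

/-- a finite partition of `X` into balls on which all the maps `s t` are similarities of the
structure -/
structure Part (𝓢 : FinSimStructure X) (D : Set (Set X)) (s : ℕ → X → X) : Prop where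
  fin : D.Finite
  cover : ∀ x, ∃ P ∈ D, x ∈ P
  disj : ∀ P ∈ D, ∀ Q ∈ D, (P ∩ Q).Nonempty → P = Q
  sm : ∀ P ∈ D, ∀ t, Sm 𝓢 P (s t)

variable {𝓢 : FinSimStructure X} {D : Set (Set X)} {s : ℕ → X → X}

theorem Part.ball (h : Part 𝓢 D s) {P : Set X} (hP : P ∈ D) : IsBall P := (h.sm P hP 0).ball

theorem Part.not_ssubset (h : Part 𝓢 D s) {P Q : Set X} (hP : P ∈ D) (hQ : Q ∈ D) : ¬ P ⊂ Q := by
  intro hPQ
  obtain ⟨z, hz⟩ := (h.ball hP).nonempty
  exact hPQ.ne (h.disj P hP Q hQ ⟨z, hz, hPQ.1 hz⟩)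

theorem Part.sm_run (h : Part 𝓢 D s) {B : Set X} (hB : IsBall B) (t m : ℕ)
    (hin : ∀ j < m, ∃ P ∈ D, run s t j '' B ⊆ P) : Sm 𝓢 B (run s t m) := by
  induction m with
  | zero => exact Sm.id hB
  | succ m ih =>
    have h1 := ih fun j hj => hin j (by omega)
    obtain ⟨P, hP, hPB⟩ := hin m (by omega)
    exact h1.comp ((h.sm P hP (t + m)).restrict h1.image_ball hPB)

/-- first time at which the image of `c` is not strictly inside a piece -/
def Pop (D : Set (Set X)) (s : ℕ → X → X) (t : ℕ) (c : Set X) (m : ℕ) : Prop :=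
  (¬ ∃ P ∈ D, run s t m '' c ⊂ P) ∧ ∀ j < m, ∃ P ∈ D, run s t j '' c ⊂ P

omit [IsUltrametricDist X] in
theorem Pop.unique {t : ℕ} {c : Set X} {m m' : ℕ} (h : Pop D s t c m) (h' : Pop D s t c m') :
    m = m' := by
  rcases lt_trichotomy m m' with h1 | h1 | h1
  · exact absurd (h'.2 m h1) h.1
  · exact h1
  · exact absurd (h.2 m' h1) h'.1

omit [IsUltrametricDist X] in
theorem exists_pop {t : ℕ} {c : Set X} {m : ℕ} (h : ¬ ∃ P ∈ D, run s t m '' c ⊂ P) :
    ∃ m' ≤ m, Pop D s t c m' := by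
  classical
  have hex : ∃ m, ¬ ∃ P ∈ D, run s t m '' c ⊂ P := ⟨m, h⟩
  refine ⟨Nat.find hex, Nat.find_min' hex h, Nat.find_spec hex, fun j hj => ?_⟩
  have := Nat.find_min hex hj
  push Not at this
  exact this

variable [CompactSpace X]

/-- the decomposition lemma -/
theorem Part.pop_chain (h : Part 𝓢 D s) (v M : ℕ)
    (hv : ∀ t, ∀ P ∈ D, ∀ b m, Child b P → Pop D s t b m → m ≤ M → m ≤ v) :
    ∀ (k t : ℕ) (c : Set X), ∀ P ∈ D, ∀ m, IsBall c → c ⊆ P → dep c P ≤ k → Pop D s t c m → m ≤ M →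
      m ≤ k * v := by
  have hexact : ∀ (t : ℕ) (c : Set X), c ∈ D → ∀ m, Pop D s t c m → m = 0 := by
    intro t c hc m hm
    by_contra hm0
    obtain ⟨Q, hQ, hcQ⟩ := hm.2 0 (Nat.pos_of_ne_zero hm0)
    rw [run_zero, Set.image_id] at hcQ
    exact h.not_ssubset hc hQ hcQ
  intro k
  induction k with
  | zero =>
    intro t c P hP m hc hcP hdep hm hM
    have hcP' : c = P := by
      by_contra hne
      have h1 : P ∈ {C : Set X | IsBall C ∧ c ⊂ C ∧ C ⊆ P} :=
        ⟨h.ball hP, Set.ssubset_iff_subset_ne.2 ⟨hcP, hne⟩, Subset.rfl⟩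
      have h2 := (Set.ncard_eq_zero (finite_dep hc P)).1 (Nat.le_zero.1 hdep)
      rw [h2] at h1
      exact h1
    rw [hexact t c (hcP' ▸ hP) m hm]
    exact Nat.zero_le _
  | succ k ih =>
    intro t c P hP m hc hcP hdep hm hM
    by_cases hcP' : c = P
    · rw [hexact t c (hcP' ▸ hP) m hm]
      exact Nat.zero_le _
    obtain ⟨c₁, hc₁, hcc₁⟩ := exists_child hc (h.ball hP) (Set.ssubset_iff_subset_ne.2 ⟨hcP, hcP'⟩)
    have hpop₁ : ¬ ∃ P ∈ D, run s t m '' c₁ ⊂ P := by
      rintro ⟨Q, hQ, hQc⟩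
      exact hm.1 ⟨Q, hQ, lt_of_le_of_lt (Set.image_mono hcc₁) hQc⟩
    obtain ⟨m₁, hm₁, hp₁⟩ := exists_pop hpop₁
    have hm₁v : m₁ ≤ v := hv t P hP c₁ m₁ hc₁ hp₁ (hm₁.trans hM)
    rcases Nat.eq_or_lt_of_le hm₁ with heq | hlt
    · calc m = m₁ := heq.symm
        _ ≤ v := hm₁v
        _ ≤ (k + 1) * v := Nat.le_mul_of_pos_left _ (Nat.succ_pos k)
    obtain ⟨Q, hQ, hcQ⟩ := hm.2 m₁ hlt
    have hsm : Sm 𝓢 c₁ (run s t m₁) := by
      refine h.sm_run hc₁.1 t m₁ fun j hj => ?_
      obtain ⟨P', hP', hh⟩ := hp₁.2 j hj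
      exact ⟨P', hP', hh.1⟩
    have hc' : IsBall (run s t m₁ '' c) := (hsm.restrict hc hcc₁).image_ball
    have hQc₁ : Q ⊆ run s t m₁ '' c₁ := by
      obtain ⟨z, hz⟩ := hc'.nonempty
      rcases (h.ball hQ).nested hsm.image_ball ⟨z, hcQ.1 hz, Set.image_mono hcc₁ hz⟩ with h1 | h1
      · exact h1
      · by_contra hcon
        exact hp₁.1 ⟨Q, hQ, h1, hcon⟩
    have hdep' : dep (run s t m₁ '' c) Q ≤ k := by
      have h1 := dep_mono hc' hQc₁
      rw [hsm.dep_image hcc₁] at h1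
      have h2 := dep_child hc hc₁ hcc₁
      omega
    have hpop' : Pop D s (t + m₁) (run s t m₁ '' c) (m - m₁) := by
      constructor
      · rw [← run_image_add, Nat.add_sub_cancel' hm₁]
        exact hm.1
      · intro j hj
        rw [← run_image_add]
        exact hm.2 (m₁ + j) (by omega)
    have := ih (t + m₁) (run s t m₁ '' c) Q hQ (m - m₁) hc' hcQ.1 hdep' hpop' (by omega)
    calc m = (m - m₁) + m₁ := (Nat.sub_add_cancel hm₁).symm
      _ ≤ k * v + v := Nat.add_le_add this hm₁v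
      _ = (k + 1) * v := by ring

theorem Part.pop_step (h : Part 𝓢 D s) (d : ℕ)
    (hd : ∀ t, ∀ P ∈ D, ∀ Q ∈ D, s t '' P ⊆ Q → dep (s t '' P) Q ≤ d)
    (v t : ℕ) {P b : Set X} (hP : P ∈ D) (hb : Child b P) {m : ℕ} (hm : Pop D s t b m)
    (hv : ∀ t, ∀ P ∈ D, ∀ b m', Child b P → Pop D s t b m' → m' ≤ m - 1 → m' ≤ v) :
    1 ≤ m ∧ m ≤ 1 + (d + 1) * v := by
  have hm1 : 1 ≤ m := by
    by_contra hcon
    have hm0 : m = 0 := by omega
    subst hm0
    exact hm.1 ⟨P, hP, by rw [run_zero, Set.image_id]; exact hb.2.2.1⟩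
  refine ⟨hm1, ?_⟩
  rcases Nat.eq_or_lt_of_le hm1 with h1 | h1
  · omega
  have hsb : Sm 𝓢 b (s t) := (h.sm P hP t).restrict hb.1 hb.2.2.1.1
  obtain ⟨Q, hQ, hbQ⟩ := hm.2 1 h1
  rw [run_one] at hbQ
  -- `s t '' P ⊆ Q`
  have hPQ : s t '' P ⊆ Q := by
    obtain ⟨z, hz⟩ := hsb.image_ball.nonempty
    rcases (h.sm P hP t).image_ball.nested (h.ball hQ) ⟨z, Set.image_mono hb.2.2.1.1 hz, hbQ.1 hz⟩
      with h2 | h2
    · exact h2
    · obtain ⟨C, hC, hCP, rfl⟩ := (h.sm P hP t).pull (h.ball hQ) h2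
      have h3 : b ⊂ C := ((h.sm P hP t).image_ssubset_iff hb.2.2.1.1 hCP).1 hbQ
      by_cases hCP' : C = P
      · rw [hCP']
      · have := hb.2.2.2 C hC h3.1 (Set.ssubset_iff_subset_ne.2 ⟨hCP, hCP'⟩)
        exact absurd this h3.ne'
  have hdep : dep (s t '' b) Q ≤ d + 1 := by
    have h2 := hd t P hP Q hQ hPQ
    have hchild : dep b P = 1 := by
      have h3 := dep_child hb.1 hb (Subset.rfl)
      have h4 : dep b b = 0 := by
        unfold dep
        rw [Set.ncard_eq_zero (finite_dep hb.1 b)]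
        ext C
        simp only [Set.mem_ofPred_eq, Set.mem_empty_iff_false, iff_false]
        rintro ⟨_, h5, h6⟩
        exact h5.2 h6
      omega
    -- balls between s t '' b and Q
    have h5 : {C : Set X | IsBall C ∧ s t '' b ⊂ C ∧ C ⊆ Q} ⊆
        {C : Set X | IsBall C ∧ s t '' b ⊂ C ∧ C ⊆ s t '' P} ∪
        {C : Set X | IsBall C ∧ s t '' P ⊂ C ∧ C ⊆ Q} := by
      rintro C ⟨hC, hbC, hCQ⟩
      obtain ⟨z, hz⟩ := hsb.image_ball.nonempty
      by_cases h6 : C ⊆ s t '' P
      · exact Or.inl ⟨hC, hbC, h6⟩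
      · right
        rcases hC.nested (h.sm P hP t).image_ball ⟨z, hbC.1 hz, Set.image_mono hb.2.2.1.1 hz⟩
          with h7 | h7
        · exact absurd h7 h6
        · exact ⟨hC, ⟨h7, h6⟩, hCQ⟩
    have h6 : dep (s t '' b) Q ≤ dep (s t '' b) (s t '' P) + dep (s t '' P) Q := by
      unfold dep
      refine (Set.ncard_le_ncard h5 ((finite_dep hsb.image_ball _).union
        (finite_dep (h.sm P hP t).image_ball _))).trans (Set.ncard_union_le _ _)
    rw [(h.sm P hP t).dep_image hb.2.2.1.1, hchild] at h6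
    omega
  have hpop' : Pop D s (t + 1) (s t '' b) (m - 1) := by
    have hi : ∀ j, run s (t + 1) j '' (s t '' b) = run s t (1 + j) '' b := by
      intro j
      rw [run_image_add, run_one]
    constructor
    · rw [hi, Nat.add_sub_cancel' hm1]
      exact hm.1
    · intro j hj
      rw [hi]
      exact hm.2 (1 + j) (by omega)
  have := h.pop_chain v (m - 1) hv (d + 1) (t + 1) (s t '' b) Q hQ (m - 1) hsb.image_ball hbQ.1
    hdep hpop' le_rfl
  omega

/-- all the finite pop times -/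
def PopVals (D : Set (Set X)) (s : ℕ → X → X) : Set ℕ :=
  {m | ∃ t, ∃ P ∈ D, ∃ b, Child b P ∧ Pop D s t b m}

theorem Part.popVals_finite (h : Part 𝓢 D s) (n : ℕ) (hn : 0 < n) (hs : ∀ t, s (t + n) = s t) :
    (PopVals D s).Finite ∧
      (PopVals D s).ncard ≤ n * {b : Set X | ∃ P ∈ D, Child b P}.ncard := by
  classical
  have hC : {b : Set X | ∃ P ∈ D, Child b P}.Finite := by
    have : {b : Set X | ∃ P ∈ D, Child b P} = ⋃ P ∈ D, {b : Set X | Child b P} := by
      ext b
      simp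
    rw [this]
    exact h.fin.biUnion fun P _ => finite_children P
  have hmod : ∀ t, s (t % n) = s t := by
    intro t
    induction t using Nat.strong_induction_on with
    | _ t ih =>
      by_cases ht : t < n
      · rw [Nat.mod_eq_of_lt ht]
      · push Not at ht
        have := ih (t - n) (by omega)
        rw [Nat.mod_eq_sub_mod ht, this, ← hs (t - n), Nat.sub_add_cancel ht]
  have hrun : ∀ t m, run s (t % n) m = run s t m := by
    intro t m
    refine run_congr (fun j => ?_) m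
    rw [← hmod (t % n + j), ← hmod (t + j), Nat.mod_add_mod]
  set F : ℕ × Set X → ℕ := fun p => if hp : ∃ m, Pop D s p.1 p.2 m then hp.choose else 0 with hF
  have hsub : PopVals D s ⊆ F '' ((Set.Iio n) ×ˢ {b : Set X | ∃ P ∈ D, Child b P}) := by
    rintro m ⟨t, P, hP, b, hb, hm⟩
    refine ⟨(t % n, b), ⟨Nat.mod_lt t hn, P, hP, hb⟩, ?_⟩
    have hm' : Pop D s (t % n) b m := by
      unfold Pop
      simp only [hrun]
      exact hm
    have hex : ∃ m, Pop D s (t % n) b m := ⟨m, hm'⟩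
    simp only [hF, hex, dif_pos]
    exact hex.choose_spec.unique hm'
  have hfin : ((Set.Iio n) ×ˢ {b : Set X | ∃ P ∈ D, Child b P}).Finite :=
    (Set.finite_Iio n).prod hC
  refine ⟨(hfin.image F).subset hsub, ?_⟩
  calc (PopVals D s).ncard ≤ (F '' ((Set.Iio n) ×ˢ {b : Set X | ∃ P ∈ D, Child b P})).ncard :=
        Set.ncard_le_ncard hsub (hfin.image F)
    _ ≤ ((Set.Iio n) ×ˢ {b : Set X | ∃ P ∈ D, Child b P}).ncard := Set.ncard_image_le hfin
    _ = n * {b : Set X | ∃ P ∈ D, Child b P}.ncard := by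
        rw [Set.ncard_prod]
        congr 1
        rw [Set.ncard_eq_toFinset_card' (Set.Iio n)]
        simp

theorem Part.popVals_le (h : Part 𝓢 D s) (n : ℕ) (hn : 0 < n) (hs : ∀ t, s (t + n) = s t)
    (d : ℕ) (hd : ∀ t, ∀ P ∈ D, ∀ Q ∈ D, s t '' P ⊆ Q → dep (s t '' P) Q ≤ d)
    (v : ℕ) (hv : v ∈ PopVals D s) :
    v ≤ (d + 2) ^ (n * {b : Set X | ∃ P ∈ D, Child b P}.ncard) := by
  obtain ⟨hfin, hcard⟩ := h.popVals_finite n hn hs
  have key : ∀ v, v ∈ PopVals D s → v ≤ (d + 2) ^ (PopVals D s ∩ Set.Iic v).ncard := by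
    intro v
    induction v using Nat.strong_induction_on with
    | _ v ih =>
      intro hv
      obtain ⟨t, P, hP, b, hb, hm⟩ := hv
      have hv' : v ∈ PopVals D s := ⟨t, P, hP, b, hb, hm⟩
      rcases Set.eq_empty_or_nonempty (PopVals D s ∩ Set.Iio v) with h0 | hne
      · have h1 := (h.pop_step d hd 0 t hP hb hm (by
          intro t' P' hP' b' m' hb' hm' hle
          by_contra hcon
          push Not at hcon
          have hlt : m' < v := by omega
          have : m' ∈ PopVals D s ∩ Set.Iio v := ⟨⟨t', P', hP', b', hb', hm'⟩, hlt⟩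
          rw [h0] at this
          exact this)).2
        calc v ≤ 1 := by omega
          _ ≤ (d + 2) ^ (PopVals D s ∩ Set.Iic v).ncard := Nat.one_le_pow _ _ (by omega)
      · obtain ⟨u, hu, hmax⟩ := (hfin.inter_of_left (Set.Iio v)).exists_maximal hne
        have h1 := h.pop_step d hd u t hP hb hm (by
          intro t' P' hP' b' m' hb' hm' hle
          by_cases hvm : m' < v
          · by_contra hcon
            push Not at hcon
            exact absurd (hmax (⟨⟨t', P', hP', b', hb', hm'⟩, hvm⟩ : m' ∈ PopVals D s ∩ Set.Iio v)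
              hcon.le) (not_le.2 hcon)
          · have : m' = 0 := by omega
            rw [this]
            exact Nat.zero_le _)
        have hulv : u < v := hu.2
        have hu' := ih u hulv hu.1
        have hcardlt : (PopVals D s ∩ Set.Iic u).ncard + 1 ≤ (PopVals D s ∩ Set.Iic v).ncard := by
          have hssub : PopVals D s ∩ Set.Iic u ⊂ PopVals D s ∩ Set.Iic v := by
            refine ⟨fun z hz => ⟨hz.1, le_trans hz.2 hulv.le⟩, fun hcon => ?_⟩
            have := Set.mem_Iic.1 (hcon ⟨hv', Set.mem_Iic.2 le_rfl⟩).2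
            exact absurd this (not_le.2 hulv)
          exact Set.ncard_lt_ncard hssub (hfin.inter_of_left _)
        calc v ≤ 1 + (d + 1) * u := h1.2
          _ ≤ 1 + (d + 1) * (d + 2) ^ (PopVals D s ∩ Set.Iic u).ncard := by gcongr
          _ ≤ (d + 2) ^ (PopVals D s ∩ Set.Iic u).ncard +
              (d + 1) * (d + 2) ^ (PopVals D s ∩ Set.Iic u).ncard :=
              Nat.add_le_add_right (Nat.one_le_pow _ _ (by omega)) _
          _ = (d + 2) ^ ((PopVals D s ∩ Set.Iic u).ncard + 1) := by ring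
          _ ≤ (d + 2) ^ (PopVals D s ∩ Set.Iic v).ncard :=
              Nat.pow_le_pow_right (by omega) hcardlt
  refine (key v hv).trans (Nat.pow_le_pow_right (by omega) ?_)
  exact (Set.ncard_le_ncard Set.inter_subset_left hfin).trans hcard

end Pool.Agent.Lib_helper47.FSS
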