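import Pool.Agent.Lib_helper47.FSS.Core

set_option autoImplicit false
set_option linter.unusedSectionVars false

/-! The FSS group of a finite similarity structure and its period growth. -/

namespace Pool.Agent.Lib_helper47.FSS

open Set Metric

variable {X : Type*} [MetricSpace X]

/-- `h` is locally determined by the structure: every point lies in a ball `B` such that `h '' B`
is a ball and the restriction of `h` to `B` belongs to `Sim B (h '' B)`. -/
def LocallyDetermined (𝓢 : FinSimStructure X) (h : X → X) : Prop :=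
  ∀ x : X, ∃ B : Set X, x ∈ B ∧ IsBall B ∧ IsBall (h '' B) ∧ h ∈ 𝓢.Sim B (h '' B)

theorem locallyDetermined_iff {𝓢 : FinSimStructure X} {h : X → X} :
    LocallyDetermined 𝓢 h ↔ ∀ x : X, ∃ B : Set X, x ∈ B ∧ Sm 𝓢 B h := by
  constructor
  · intro H x
    obtain ⟨B, hx, _, _, hB⟩ := H x
    exact ⟨B, hx, hB⟩
  · intro H x
    obtain ⟨B, hx, hB⟩ := H x
    exact ⟨B, hx, Sm.ball hB, Sm.image_ball hB, hB⟩

variable [IsUltrametricDist X]

/-- The FSS group of a finite similarity structure: all homeomorphisms of `X` which are locally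
determined by the structure. -/
def FSSGroup (𝓢 : FinSimStructure X) : Subgroup (X ≃ₜ X) where
  carrier := {h | LocallyDetermined 𝓢 h}
  one_mem' := by
    refine locallyDetermined_iff.2 fun x => ?_
    exact ⟨Metric.ball x 1, mem_ball_self one_pos, Sm.id ⟨x, 1, one_pos, rfl⟩⟩
  mul_mem' := by
    intro a b ha hb
    refine locallyDetermined_iff.2 fun x => ?_
    obtain ⟨B, hxB, hB⟩ := locallyDetermined_iff.1 hb x
    obtain ⟨C, hxC, hC⟩ := locallyDetermined_iff.1 ha (b x)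
    rcases hC.ball.nested hB.image_ball ⟨b x, hxC, ⟨x, hxB, rfl⟩⟩ with h1 | h1
    · obtain ⟨C', hC', hC'B, hC'C⟩ := hB.pull hC.ball h1
      refine ⟨C', ?_, ?_⟩
      · have hx : b x ∈ b '' C' := by rw [hC'C]; exact hxC
        obtain ⟨z, hz, hzx⟩ := hx
        rwa [← b.injective hzx]
      · have hb' : Sm 𝓢 C' b := hB.restrict hC' hC'B
        have : Sm 𝓢 C' (a ∘ b) := hb'.comp (by rw [hC'C]; exact hC)
        exact this
    · exact ⟨B, hxB, hB.comp (hC.restrict hB.image_ball h1)⟩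
  inv_mem' := by
    intro a ha
    refine locallyDetermined_iff.2 fun y => ?_
    obtain ⟨B, hxB, hB⟩ := locallyDetermined_iff.1 ha (a⁻¹ y)
    refine ⟨a '' B, ⟨a⁻¹ y, hxB, a.apply_symm_apply y⟩, ?_⟩
    obtain ⟨g, hg, hgf⟩ := 𝓢.inv_mem hB
    have h1 : EqOn g (⇑(a⁻¹)) (a '' B) := by
      rintro _ ⟨x, hx, rfl⟩
      rw [hgf x hx]
      exact (a.symm_apply_apply x).symm
    have h2 : Sm 𝓢 (a '' B) g := by
      unfold Sm
      rw [𝓢.image_eq hg]
      exact hg
    exact h2.congr h1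

theorem mem_FSSGroup {𝓢 : FinSimStructure X} {h : X ≃ₜ X} :
    h ∈ FSSGroup 𝓢 ↔ LocallyDetermined 𝓢 h := Iff.rfl

/-- simultaneous balls -/
theorem exists_ball_finset {𝓢 : FinSimStructure X} {ι : Type*} (I : Finset ι) (f : ι → X → X)
    (hf : ∀ i ∈ I, LocallyDetermined 𝓢 (f i)) (x : X) :
    ∃ B, IsBall B ∧ x ∈ B ∧ ∀ i ∈ I, Sm 𝓢 B (f i) := by
  classical
  induction I using Finset.induction_on with
  | empty => exact ⟨Metric.ball x 1, ⟨x, 1, one_pos, rfl⟩, mem_ball_self one_pos, by simp⟩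
  | insert i I hi ih =>
    obtain ⟨B, hB, hxB, hBI⟩ := ih fun j hj => hf j (Finset.mem_insert_of_mem hj)
    obtain ⟨C, hxC, hC⟩ := locallyDetermined_iff.1 (hf i (Finset.mem_insert_self i I)) x
    rcases hB.nested hC.ball ⟨x, hxB, hxC⟩ with h1 | h1
    · refine ⟨B, hB, hxB, fun j hj => ?_⟩
      rcases Finset.mem_insert.1 hj with rfl | hj
      · exact hC.restrict hB h1
      · exact hBI j hj
    · refine ⟨C, hC.ball, hxC, fun j hj => ?_⟩
      rcases Finset.mem_insert.1 hj with rfl | hj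
      · exact hC
      · exact (hBI j hj).restrict hC.ball h1

/-- simultaneous partition -/
theorem exists_partition [CompactSpace X] {𝓢 : FinSimStructure X} {ι : Type*} (I : Finset ι)
    (f : ι → X → X) (hf : ∀ i ∈ I, LocallyDetermined 𝓢 (f i)) :
    ∃ D : Set (Set X), D.Finite ∧ (∀ P ∈ D, IsBall P) ∧ (∀ x, ∃ P ∈ D, x ∈ P) ∧
      (∀ P ∈ D, ∀ Q ∈ D, (P ∩ Q).Nonempty → P = Q) ∧ ∀ P ∈ D, ∀ i ∈ I, Sm 𝓢 P (f i) := by
  classical
  choose B hB hxB hBI using exists_ball_finset I f hf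
  obtain ⟨t, ht⟩ := isCompact_univ.elim_finite_subcover B (fun x => (hB x).isOpen)
    (fun x _ => mem_iUnion.2 ⟨x, hxB x⟩)
  set 𝓑 : Set (Set X) := B '' (t : Set X) with h𝓑
  have h𝓑f : 𝓑.Finite := t.finite_toSet.image B
  refine ⟨{P | P ∈ 𝓑 ∧ ∀ Q ∈ 𝓑, P ⊆ Q → Q = P}, h𝓑f.subset fun P hP => hP.1, ?_, ?_, ?_, ?_⟩
  · rintro P ⟨⟨x, _, rfl⟩, _⟩
    exact hB x
  · intro x
    obtain ⟨y, hy⟩ := mem_iUnion.1 (ht (mem_univ x))
    obtain ⟨hyt, hxy⟩ := mem_iUnion.1 hy
    have hy𝓑 : B y ∈ 𝓑 := ⟨y, hyt, rfl⟩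
    obtain ⟨P, hyP, hP⟩ := h𝓑f.exists_le_maximal hy𝓑
    exact ⟨P, ⟨hP.1, fun Q hQ hPQ => Subset.antisymm (hP.2 hQ hPQ) hPQ⟩, hyP hxy⟩
  · rintro P ⟨⟨x, hxt, rfl⟩, hPmax⟩ Q ⟨⟨y, hyt, rfl⟩, hQmax⟩ hne
    rcases (hB x).nested (hB y) hne with h1 | h1
    · exact (hPmax _ ⟨y, hyt, rfl⟩ h1).symm
    · exact hQmax _ ⟨x, hxt, rfl⟩ h1
  · rintro P ⟨⟨x, _, rfl⟩, _⟩ i hi
    exact hBI x i hi

/-- elements of `Sim Q Q` have bounded order -/
theorem exists_exponent (𝓢 : FinSimStructure X) (Q : Set X) :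
    ∃ E : ℕ, 1 ≤ E ∧ ∀ f ∈ 𝓢.Sim Q Q, ∀ x ∈ Q, f^[E] x = x := by
  classical
  obtain ⟨F, hF, hFs⟩ := 𝓢.finite Q Q
  refine ⟨(F.ncard).factorial, Nat.factorial_pos _, fun f hf => ?_⟩
  have hfm : MapsTo f Q Q := by
    intro x hx
    rw [← 𝓢.image_eq hf]
    exact ⟨x, hx, rfl⟩
  have hit : ∀ i, f^[i] ∈ 𝓢.Sim Q Q := by
    intro i
    induction i with
    | zero => exact 𝓢.id_mem (𝓢.left_ball hf)
    | succ i ih =>
      rw [Function.iterate_succ']
      exact 𝓢.comp_mem ih hf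
  choose g hgF hg using fun i => hFs _ (hit i)
  obtain ⟨i, hi, j, hj, hij, heq⟩ := Finset.exists_ne_map_eq_of_card_lt_of_maps_to
    (s := Finset.range (F.ncard + 1)) (t := hF.toFinset) (f := g) (by
      rw [Finset.card_range, ← Set.ncard_eq_toFinset_card F hF]
      exact Nat.lt_succ_self _) (fun j _ => by simpa using hgF j)
  rw [Finset.mem_range] at hi hj
  have key : ∀ i j : ℕ, i < j → j < F.ncard + 1 → g i = g j → ∀ x ∈ Q,
      f^[(F.ncard).factorial] x = x := by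
    intro i j hij hj heq x hx
    have h1 : ∀ x ∈ Q, f^[i] x = f^[j] x := by
      intro x hx
      rw [hg i hx, hg j hx, heq]
    have h2 : f^[j - i] x = x := by
      have h3 : Sm 𝓢 Q (f^[i]) := by
        unfold Sm
        rw [𝓢.image_eq (hit i)]
        exact hit i
      have h4 : f^[j] x = f^[i] (f^[j - i] x) := by
        rw [← Function.iterate_add_apply, Nat.add_sub_cancel' hij.le]
      have h5 : f^[j - i] x ∈ Q := (hfm.iterate (j - i)) hx
      exact (h3.injOn hx h5 (by rw [h1 x hx, h4])).symm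
    exact Function.IsPeriodicPt.trans_dvd (f := f) h2
      (Nat.dvd_factorial (Nat.sub_pos_of_lt hij) (by omega))
  rcases lt_or_gt_of_ne hij with h1 | h1
  · exact key i j h1 hj heq
  · exact key j i h1 hi heq.symm

/-- numerical estimate -/
theorem numeric (E a c d : ℕ) : ∃ C : ℝ, 0 < C ∧ 1 ≤ C ∧ ∀ n N : ℕ, 1 ≤ n → n ≤ N →
    ((E * ((n * a) * (1 + d * (d + 2) ^ (n * c))) ^ (n * a) : ℕ) : ℝ) ≤
      C * Real.exp (C * (N : ℝ) ^ 2) := by
  set A : ℝ := a * (a + (d + 2) * (c + 1)) with hA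
  have hA0 : 0 ≤ A := by positivity
  refine ⟨(E : ℝ) + A + 1, by positivity, ?_, fun n N hn hnN => ?_⟩
  · have : (0 : ℝ) ≤ E := Nat.cast_nonneg E
    linarith
  have hn1 : (1 : ℝ) ≤ n := by exact_mod_cast hn
  have hnN' : (n : ℝ) ≤ N := by exact_mod_cast hnN
  have hE0 : (0 : ℝ) ≤ E := Nat.cast_nonneg E
  push_cast
  have h1 : (n : ℝ) * a ≤ Real.exp (n * a) := (Real.add_one_le_exp _).trans' (by linarith)
  have h2 : (1 : ℝ) + d * (d + 2) ^ (n * c) ≤ ((d : ℝ) + 2) ^ (n * c + 1) := by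
    have h3 : (1 : ℝ) ≤ ((d : ℝ) + 2) ^ (n * c) := one_le_pow₀ (by
      have : (0 : ℝ) ≤ d := Nat.cast_nonneg d
      linarith)
    have : ((d : ℝ) + 2) ^ (n * c + 1) = d * (d + 2) ^ (n * c) + 2 * ((d : ℝ) + 2) ^ (n * c) := by
      ring
    rw [this]
    linarith
  have h4 : ((d : ℝ) + 2) ^ (n * c + 1) ≤ Real.exp ((d + 2) * (n * c + 1)) := by
    have h5 : (d : ℝ) + 2 ≤ Real.exp (d + 2) := (Real.add_one_le_exp _).trans' (by linarith)
    calc ((d : ℝ) + 2) ^ (n * c + 1) ≤ (Real.exp (d + 2)) ^ (n * c + 1) :=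
          pow_le_pow_left₀ (by positivity) h5 _
      _ = Real.exp ((d + 2) * (n * c + 1)) := by
          rw [← Real.exp_nat_mul]
          push_cast
          ring_nf
  have h6 : ((n : ℝ) * a) * (1 + d * (d + 2) ^ (n * c)) ≤
      Real.exp (n * (a + (d + 2) * (c + 1))) := by
    calc ((n : ℝ) * a) * (1 + d * (d + 2) ^ (n * c))
        ≤ Real.exp (n * a) * Real.exp ((d + 2) * (n * c + 1)) :=
          mul_le_mul h1 (h2.trans h4) (by positivity) (Real.exp_pos _).le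
      _ = Real.exp (n * a + (d + 2) * (n * c + 1)) := (Real.exp_add _ _).symm
      _ ≤ Real.exp (n * (a + (d + 2) * (c + 1))) := by
          rw [Real.exp_le_exp]
          have hd : (0 : ℝ) ≤ (d : ℝ) + 2 := by positivity
          nlinarith [mul_le_mul_of_nonneg_left hn1 hd]
  have h7 : (((n : ℝ) * a) * (1 + d * (d + 2) ^ (n * c))) ^ (n * a) ≤ Real.exp (A * (n : ℝ) ^ 2) := by
    calc (((n : ℝ) * a) * (1 + d * (d + 2) ^ (n * c))) ^ (n * a)
        ≤ (Real.exp (n * (a + (d + 2) * (c + 1)))) ^ (n * a) :=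
          pow_le_pow_left₀ (by positivity) h6 _
      _ = Real.exp (A * (n : ℝ) ^ 2) := by
          rw [← Real.exp_nat_mul, hA]
          push_cast
          ring_nf
  have h8 : Real.exp (A * (n : ℝ) ^ 2) ≤ Real.exp (((E : ℝ) + A + 1) * (N : ℝ) ^ 2) := by
    rw [Real.exp_le_exp]
    have h9 : (n : ℝ) ^ 2 ≤ (N : ℝ) ^ 2 := pow_le_pow_left₀ (by linarith) hnN' 2
    calc A * (n : ℝ) ^ 2 ≤ A * (N : ℝ) ^ 2 := mul_le_mul_of_nonneg_left h9 hA0
      _ ≤ ((E : ℝ) + A + 1) * (N : ℝ) ^ 2 := mul_le_mul_of_nonneg_right (by linarith) (sq_nonneg _)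
  calc (E : ℝ) * (((n : ℝ) * a) * (1 + d * (d + 2) ^ (n * c))) ^ (n * a)
      ≤ ((E : ℝ) + A + 1) * Real.exp (((E : ℝ) + A + 1) * (N : ℝ) ^ 2) :=
        mul_le_mul (by linarith) (h7.trans h8) (by positivity) (by positivity)

theorem periodGrowth [CompactSpace X] (𝓢 : FinSimStructure X) (k : ℕ) (f : Fin k → FSSGroup 𝓢) :
    ∃ C : ℝ, 0 < C ∧ ∀ (n : ℕ) (w : List (Fin k)), w.length ≤ n →
      IsOfFinOrder (w.map f).prod →
      ((orderOf (w.map f).prod : ℕ) : ℝ) ≤ C * Real.exp (C * (n : ℝ) ^ 2) := by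
  classical
  set φ : Fin k → X → X := fun i => ((f i : X ≃ₜ X) : X → X) with hφ
  obtain ⟨D, hDf, hDb, hDc, hDd, hDs⟩ := exists_partition (𝓢 := 𝓢) (Finset.univ : Finset (Fin k)) φ
    (fun i _ => (f i).2)
  -- the depth bound
  obtain ⟨d, hd⟩ : ∃ d : ℕ, ∀ i, ∀ P ∈ D, ∀ Q ∈ D, dep (φ i '' P) Q ≤ d := by
    have hfin : ((Set.univ : Set (Fin k)) ×ˢ (D ×ˢ D)).Finite :=
      Set.finite_univ.prod (hDf.prod hDf)
    obtain ⟨d, hd⟩ := (hfin.image (fun p : Fin k × Set X × Set X => dep (φ p.1 '' p.2.1) p.2.2)).bddAbove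
    exact ⟨d, fun i P hP Q hQ => hd ⟨(i, P, Q), ⟨mem_univ _, hP, hQ⟩, rfl⟩⟩
  -- the exponent
  obtain ⟨E, hE1, hE⟩ : ∃ E : ℕ, 1 ≤ E ∧ ∀ Q ∈ D, ∀ g ∈ 𝓢.Sim Q Q, ∀ x ∈ Q, g^[E] x = x := by
    choose e he1 he using exists_exponent 𝓢
    refine ⟨∏ Q ∈ hDf.toFinset, e Q, Nat.succ_le_of_lt (Finset.prod_pos fun Q _ => he1 Q),
      fun Q hQ g hg x hx => ?_⟩
    exact Function.IsPeriodicPt.trans_dvd (f := g) (he Q g hg x hx)
      (Finset.dvd_prod_of_mem e (by simpa using hQ))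
  obtain ⟨C, hC0, hC1, hC⟩ := numeric E D.ncard {b : Set X | ∃ P ∈ D, Child b P}.ncard d
  refine ⟨C, hC0, fun n w hw hfin => ?_⟩
  rcases Nat.eq_zero_or_pos w.length with h0 | hpos
  · have : w = [] := List.length_eq_zero_iff.1 h0
    subst this
    simp only [List.map_nil, List.prod_nil, orderOf_one, Nat.cast_one]
    calc (1 : ℝ) ≤ C * 1 := by linarith
      _ ≤ C * Real.exp (C * (n : ℝ) ^ 2) := by
          refine mul_le_mul_of_nonneg_left ?_ hC0.le
          exact Real.one_le_exp (by positivity)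
  -- the periodic sequence
  set r := w.reverse with hr
  have hrl : r.length = w.length := by rw [hr, List.length_reverse]
  set m := w.length with hm
  set s : ℕ → X → X := fun t => φ (r[t % m]'(by rw [hrl]; exact Nat.mod_lt t hpos)) with hs
  have hper : ∀ t, s (t + m) = s t := by
    intro t
    simp only [hs, Nat.add_mod_right]
  have hpart : Part 𝓢 D s := ⟨hDf, hDc, hDd, fun P hP t => hDs P hP _ (Finset.mem_univ _)⟩
  have hrun : ∀ j, j ≤ m → run s 0 j = ((((r.take j).reverse).map f).prod : FSSGroup 𝓢).1 := by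
    intro j
    induction j with
    | zero =>
      intro _
      simp only [List.take_zero, List.reverse_nil, List.map_nil, List.prod_nil]
      rfl
    | succ j ih =>
      intro hj
      have hjr : j < r.length := by omega
      rw [run_succ, ih (by omega), List.take_add_one, List.getElem?_eq_getElem hjr]
      simp only [Option.toList_some, List.reverse_append, List.reverse_cons, List.reverse_nil,
        List.nil_append, List.map_append, List.map_cons, List.map_nil, List.prod_append,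
        List.prod_cons, List.prod_nil, mul_one]
      have hsj : s (0 + j) = φ (r[j]'hjr) := by
        simp only [hs, Nat.zero_add]
        congr 1
        have : j % m = j := Nat.mod_eq_of_lt (by omega)
        simp only [this]
      rw [hsj]
      rfl
  have hrunm : run s 0 m = (((w.map f).prod : FSSGroup 𝓢) : X ≃ₜ X) := by
    rw [hrun m le_rfl]
    have : r.take m = r := by
      rw [← hrl]
      exact List.take_length
    rw [this, hr, List.reverse_reverse]
  have hpow : ∀ (g : FSSGroup 𝓢) (N : ℕ), ((g : X ≃ₜ X) : X → X)^[N] = (((g ^ N : FSSGroup 𝓢) : X ≃ₜ X) : X → X) := by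
    intro g N
    induction N with
    | zero => rfl
    | succ N ih =>
      rw [Function.iterate_succ, ih, pow_succ]
      rfl
  obtain ⟨N, hN, hgN⟩ := (isOfFinOrder_iff_pow_eq_one.1 hfin)
  obtain ⟨R, hR1, hRle, hRid⟩ := hpart.main m hpos hper
    (fun t => (f _ : X ≃ₜ X).continuous) (fun t => (f _ : X ≃ₜ X).bijective) d
    (fun t P hP Q hQ _ => hd _ P hP Q hQ) E hE1 hE N hN (by
      rw [hrunm, hpow, hgN]
      rfl)
  have hgR : (w.map f).prod ^ R = 1 := by
    rw [hrunm, hpow] at hRid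
    apply Subtype.ext
    apply Homeomorph.ext
    intro x
    exact congrFun hRid x
  have hord : orderOf (w.map f).prod ≤ R := orderOf_le_of_pow_eq_one hR1 hgR
  calc ((orderOf (w.map f).prod : ℕ) : ℝ) ≤ (R : ℝ) := by exact_mod_cast hord
    _ ≤ ((E * ((m * D.ncard) *
        (1 + d * (d + 2) ^ (m * {b : Set X | ∃ P ∈ D, Child b P}.ncard))) ^ (m * D.ncard) : ℕ) : ℝ) := by
        exact_mod_cast hRle
    _ ≤ C * Real.exp (C * (n : ℝ) ^ 2) := hC m n hpos hw

end Pool.Agent.Lib_helper47.FSS
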